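import Pool.Agent.PSS.StmtsS1a

/-! PSS, row UNJ: Nakayama. -/

set_option autoImplicit false

namespace Pool.Agent.PSS.H39

theorem unj : UnjStmt := by
  intro R M _ p _ _ _ hp u hu
  have hj : Ideal.span {p} ≤ Ideal.jacobson (⊥ : Ideal R) := by
    rw [Ideal.span_singleton_le_iff_mem, Ideal.mem_jacobson_bot]
    intro y
    have := hp y
    rwa [add_comm] at this
  have hs : Function.Surjective u := by
    rw [← LinearMap.range_eq_top, eq_top_iff]
    refine Submodule.le_of_le_smul_of_le_jacobson_bot Module.Finite.fg_top hj ?_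
    intro x _
    obtain ⟨y, hy⟩ := hu x
    have hx : x = u x + (-p) • y := by
      rw [neg_smul, ← hy]; abel
    rw [hx]
    refine Submodule.add_mem_sup ⟨x, rfl⟩ ?_
    exact Submodule.smul_mem_smul (Ideal.neg_mem_iff _ |>.2 (Ideal.mem_span_singleton_self p)) trivial
  exact ⟨OrzechProperty.injective_of_surjective_endomorphism u hs, hs⟩

end Pool.Agent.PSS.H39
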