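import Pool.Agent.PSS.StmtsS5

/-! PSS, block S5, row LCQ: the class of local algebras is stable under Brauer quotients. -/

set_option autoImplicit false

open scoped BigOperators

namespace Pool.Agent.PSS.S5.H39

open Pool.Agent.PFC (Cz)
open Pool.Agent.PSS.S0 (IsBQ)

theorem fxr_mono {F V A : Type} [Field F] [CommGroup V] [Ring A] [Algebra F A] {α : V →* A}
    (Q : Subgroup V) {a : A} (h : a ∈ FxR (cw F α) ⊤) : a ∈ FxR (cw F α) Q :=
  fun v _ => h v trivial

theorem mem_cz {F V A : Type} [Field F] [CommGroup V] [Ring A] [Algebra F A] {α : V →* A} {a : A} :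
    a ∈ Cz F α ⊤ ↔ a ∈ FxR (cw F α) ⊤ := by
  rw [mem_cw]
  unfold Cz
  rw [Subalgebra.mem_centralizer_iff]
  constructor
  · intro h q _
    exact h (α q) ⟨q, trivial, rfl⟩
  · rintro h _ ⟨q, _, rfl⟩
    exact h q trivial

theorem lcq (hBpu : S0.BpuStmt) (hBbk : S0.BbkStmt) : LcqStmt := by
  classical
  intro ℓ _ F V E A B _ _ _ _ _ _ _ _ _ φ α Q αB β E1 hV hL hB hE
  obtain ⟨lam, K, _, x, y, hRF, hlam⟩ := hL.frm
  have hℓ : ((ℓ : ℕ) : F) = 0 := CharP.cast_eq_zero F ℓ
  obtain ⟨hPer, hUni, lamB, KB, _, xB, yB, hRFB, hlamB⟩ :=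
    hBpu ℓ F V E A B K φ α Q αB β lam x y E1 hℓ hV hL.per hL.uni hRF hB hE
  obtain ⟨hb1, hb2⟩ := hBbk ℓ F V E A B K φ α Q αB β lam x y ⊤ hℓ hV hL.per hRF hB
  rw [top_sup_eq] at hb1 hb2
  have hfd := hL.fin
  -- the linear map
  let f : FxR (cw F α) Q →ₗ[F] B :=
    { toFun := fun a => β a
      map_add' := fun a b => hB.add a a.2 b b.2
      map_smul' := fun r a => hB.smul r a a.2 }
  have hf : ∀ (a : A) (ha : a ∈ FxR (cw F α) Q), f ⟨a, ha⟩ = β a := fun _ _ => rfl
  have hfs : Function.Surjective f := by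
    intro z
    obtain ⟨a, ha, h⟩ := hB.surj z
    exact ⟨⟨a, ha⟩, h⟩
  have hal : ∀ v, α v ∈ FxR (cw F α) Q := fun v => al_mem_cw v Q
  have halT : ∀ v, α v ∈ FxR (cw F α) ⊤ := fun v => al_mem_cw v ⊤
  have hcomb : ∀ c : V → F, β (∑ u, c u • α u) = ∑ u, c u • αB u := by
    intro c
    have h1 : (∑ u, c u • (⟨α u, hal u⟩ : FxR (cw F α) Q) : FxR (cw F α) Q) =
        ⟨∑ u, c u • α u, Submodule.sum_mem _ fun u _ => Submodule.smul_mem _ _ (hal u)⟩ := by
      apply Subtype.ext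
      rw [Submodule.coe_sum]
      rfl
    have h2 := congrArg f h1
    rw [map_sum, hf] at h2
    rw [← h2]
    refine Finset.sum_congr rfl fun u _ => ?_
    rw [map_smul, hf, hB.om]
  have hsum : ∑ v, αB v = β (∑ v, α v) := by
    have h1 := hcomb fun _ => 1
    simp only [one_smul] at h1
    exact h1.symm
  have hsT : (∑ v, α v) ∈ FxR (cw F α) Q := Submodule.sum_mem _ fun u _ => hal u
  have hnz : lamB (∑ v, αB v) ≠ 0 := by
    rw [hsum, hlamB _ hsT]
    exact hlam
  refine ⟨?_, hPer, hUni, ⟨lamB, KB, inferInstance, xB, yB, hRFB, hnz⟩, ?_, ?_⟩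
  · exact Module.Finite.of_surjective f hfs
  · have hloc := hL.loc
    -- the ring homomorphism
    let g : Cz F α ⊤ →+* Cz F αB ⊤ :=
      { toFun := fun a => ⟨β a, mem_cz.2 (hb1 a (mem_cz.1 a.2)).1⟩
        map_one' := Subtype.ext hB.one
        map_mul' := fun a b => Subtype.ext
          (hB.mul a (fxr_mono Q (mem_cz.1 a.2)) b (fxr_mono Q (mem_cz.1 b.2)))
        map_zero' := Subtype.ext (by
          have := f.map_zero
          exact this)
        map_add' := fun a b => Subtype.ext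
          (hB.add a (fxr_mono Q (mem_cz.1 a.2)) b (fxr_mono Q (mem_cz.1 b.2))) }
    have hgs : Function.Surjective g := by
      rintro ⟨z, hz⟩
      obtain ⟨a, ha, h⟩ := hb2 z (mem_cz.1 hz)
      exact ⟨⟨a, mem_cz.2 ha⟩, Subtype.ext h⟩
    have hnt : Nontrivial B := by
      by_contra hcon
      rw [not_nontrivial_iff_subsingleton] at hcon
      apply hnz
      rw [Subsingleton.elim (∑ v, αB v) 0, map_zero]
    have hnt2 : Nontrivial (Cz F αB ⊤) := inferInstance
    refine IsLocalRing.of_isUnit_or_isUnit_of_isUnit_add ?_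
    intro a b hab
    obtain ⟨a', ha'⟩ := hgs a
    obtain ⟨b', hb'⟩ := hgs b
    obtain ⟨c, hc⟩ := hab
    -- normalise to a sum equal to one
    obtain ⟨u', hu'⟩ := hgs (↑c⁻¹ : Cz F αB ⊤)
    have h1 : u' * a' + (1 - u' * a') = 1 := by abel
    rcases IsLocalRing.isUnit_or_isUnit_of_add_one h1 with h | h
    · left
      have h1 : IsUnit (g (u' * a')) := h.map g
      rw [map_mul, hu', ha', Units.isUnit_units_mul] at h1
      exact h1
    · right
      have h1 : IsUnit (g (1 - u' * a')) := h.map g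
      have h2 : g (1 - u' * a') = (↑c⁻¹ : Cz F αB ⊤) * b := by
        rw [map_sub, map_one, map_mul, hu', ha', sub_eq_iff_eq_add, ← mul_add, add_comm b a, ← hc,
          Units.inv_mul]
      rw [h2, Units.isUnit_units_mul] at h1
      exact h1
  · intro z hz
    obtain ⟨a, ha, rfl⟩ := hb2 z hz
    obtain ⟨c, hc⟩ := hL.spn a ha
    refine ⟨c, ?_⟩
    have hcT : (∑ u, c u • α u) ∈ FxR (cw F α) ⊤ :=
      Submodule.sum_mem _ fun u _ => Submodule.smul_mem _ _ (halT u)
    have h1 := (hb1 _ (Submodule.sub_mem _ ha hcT)).2.2 hc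
    have h2 : β (a - ∑ u, c u • α u) = β a - β (∑ u, c u • α u) := by
      have h3 := f.map_sub ⟨a, fxr_mono Q ha⟩ ⟨_, fxr_mono Q hcT⟩
      exact h3
    rw [h2, hcomb] at h1
    exact h1

end Pool.Agent.PSS.S5.H39
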