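import Pool.Agent.PSS.StmtsS5

/-! PSS, block S5, row LNP: frame, units and form of `N_W(A)`. -/

set_option autoImplicit false

open scoped BigOperators

namespace Pool.Agent.PSS.S5.H39

theorem lnp (hNfp : NfpStmt) (hDfr : DfrStmt) (hNfd : NfdStmt) (hDrf : DrfStmt) : LnpStmt := by
  classical
  intro ℓ _ F V E A B _ _ _ _ _ _ _ _ _ φ α W N hV hW hL
  obtain ⟨lam, K, _, x, y, hRF, hlam⟩ := hL.frm
  have hℓ : ((ℓ : ℕ) : F) = 0 := CharP.cast_eq_zero F ℓ
  obtain ⟨hPer, hUni⟩ := hNfp ℓ F V E A B φ α W N hℓ hV hW hL.per hL.uni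
  have hfd := hL.fin
  have hfW : Finite W := inferInstance
  have hfM : Finite (MulAut W) := inferInstance
  refine ⟨?_, hPer, hUni, ?_⟩
  · have : Fintype (MulAut W) := Fintype.ofFinite _
    let g : (MulAut W → A) →ₗ[F] B :=
      ∑ ε, (N.β ε).comp (LinearMap.proj ε)
    refine Module.Finite.of_surjective g ?_
    intro b
    obtain ⟨f, _, hf⟩ := N.spn b
    refine ⟨f, ?_⟩
    rw [← hf, finsum_eq_sum_of_fintype]
    simp [g, LinearMap.sum_apply]
  · obtain ⟨Ω, _, _, b, c, hfr, hst⟩ := hL.per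
    obtain ⟨d, -, hD⟩ := hDfr F V E A K Ω φ α lam x y b c hRF hfr hst
    have hfS : Finite (Σ ε : MulAut W, Fp Ω (twW W ε)) := inferInstance
    have : Fintype (Σ ε : MulAut W, Fp Ω (twW W ε)) := Fintype.ofFinite _
    obtain ⟨lam', hl1, hD'⟩ := hNfd ℓ F V A B Ω α lam b d W N hℓ hV hD
    refine ⟨lam', Qt (V := V) (Σ ε : MulAut W, Fp Ω (twW W ε)), inferInstance, _, _,
      hDrf F V B _ N.nwh lam' _ _ hD', ?_⟩
    have h1 : ∑ v, N.nwh v = N.β 1 (∑ v, α v) := by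
      rw [map_sum]
      rfl
    rw [h1, hl1 _ (Submodule.sum_mem _ fun v _ => al_mem_tw v W)]
    exact hlam

end Pool.Agent.PSS.S5.H39
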