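import Pool.Agent.PSS.StmtsS2

/-! PSS, block S2, row TVC. -/

set_option autoImplicit false

open scoped BigOperators

namespace Pool.Agent.PSS.S2.H39

theorem tvc (hDgz : DgzStmt) (hTrc : TrcStmt) (hRtw : RtwStmt) (hSvg : SvgStmt) (hIdt : IdtStmt)
    (hNlt : NltStmt) (hSpi : SpiStmt) : TvcStmt := by
  intro ℓ _ F V E A K Ω _ _ _ _ _ _ _ _ _ _ _ _ φ α z lam x y b c χ N u a d hV hRF hPr hu hN hχ ha hd
  -- the derivation
  have hD : ∀ p q : A, Gz α z x y N (p * q) = Gz α z x y N p * q + p * Gz α z x y N q := by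
    intro p q
    exact (cg_zero _ _).1 (hDgz F V A K 0 α z lam x y χ N hRF hN p q)
  -- central
  have hGd : ∀ p : A, Gz α z x y N d * p = p * Gz α z x y N d := by
    intro p
    have h1 := hD d p
    have h2 := hD p d
    rw [hd p, h2, ← hd (Gz α z x y N p)] at h1
    have h3 : d * Gz α z x y N p + p * Gz α z x y N d
        = d * Gz α z x y N p + Gz α z x y N d * p := by
      rw [h1, add_comm]
    exact (add_left_cancel h3).symm
  have hsg : ∀ p : A, CV α p → sg α * p = p * sg α := by
    intro p hp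
    unfold sg
    rw [Finset.sum_mul, Finset.mul_sum]
    exact Finset.sum_congr rfl fun v _ => hp v
  -- idempotents
  have hI : ∀ j : A, CV α j → j * j = j → lam (sg α * j * Gz α z x y N d) = 0 := by
    intro j hj hjj
    have hjd : CV α (j * d) := by
      intro v
      rw [← mul_assoc, hj v, mul_assoc, mul_assoc, hd (α v)]
    have e1 : Gz α z x y N (sg α * (j * d))
        = Gz α z x y N (sg α) * (j * d) + (sg α * Gz α z x y N j * d
          + sg α * j * Gz α z x y N d) := by
      rw [hD, hD, mul_add, mul_assoc (sg α) (Gz α z x y N j) d, mul_assoc (sg α) j]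
    have e2 : lam (Gz α z x y N (sg α * (j * d)))
        = - ∑ k, lam (y k * (j * d * x k * sg α)) := by
      have h1 := (cg_zero _ _).1 (hTrc F V A K 0 α z lam x y χ N hRF hN
        ((cg_zero _ _).2 hχ) (sg α * (j * d)))
      rw [h1, (hRtw ℓ F V E A K Ω φ α lam x y b c (j * d) z⁻¹ hV hRF hPr hjd).2]
    have e3 : lam (Gz α z x y N (sg α) * (j * d))
        = - ∑ k, lam (y k * (j * d * x k * sg α)) := by
      rw [← hSvg ℓ F V E A K Ω φ α z lam x y b c χ N (j * d) hV hRF hPr hN hχ hjd]
      unfold sg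
      rw [map_sum, Finset.sum_mul, map_sum]
    have e4 : lam (sg α * Gz α z x y N j * d) = 0 :=
      hIdt F A lam (fun p => Gz α z x y N p) (sg α) d j hRF.sym hD hjj (hsg j hj) hd
    rw [e1, map_add, map_add, e3, e4, zero_add] at e2
    exact add_left_cancel (e2.trans (add_zero _).symm)
  -- decomposition
  obtain ⟨n, cc, e, m, hae, he, hm, hma⟩ := hSpi F A a
  have hadj : ∀ p ∈ Algebra.adjoin F {a}, CV α p := by
    intro p hp
    have hle : Algebra.adjoin F {a} ≤ Subalgebra.centralizer F (Set.range α) := by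
      refine Algebra.adjoin_le ?_
      intro q hq
      rw [Set.mem_singleton_iff] at hq
      subst hq
      rw [SetLike.mem_coe, Subalgebra.mem_centralizer_iff]
      rintro _ ⟨v, rfl⟩
      exact ha v
    have h2 := hle hp
    rw [Subalgebra.mem_centralizer_iff] at h2
    intro v
    exact h2 _ ⟨v, rfl⟩
  have hM : lam (sg α * m * Gz α z x y N d) = 0 := by
    have hcv : CV α (m * Gz α z x y N d) := by
      intro v
      rw [← mul_assoc, hadj m hma v, mul_assoc, mul_assoc, hGd (α v)]
    have hnil : IsNilpotent (m * Gz α z x y N d) :=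
      Commute.isNilpotent_mul_right (hGd m).symm hm
    rw [mul_assoc]
    exact hNlt ℓ F V E A K Ω φ α lam x y b c u _ hV hRF hPr hu hcv hnil
  rw [hae, mul_add, add_mul, map_add, hM, add_zero, Finset.mul_sum, Finset.sum_mul, map_sum]
  refine Finset.sum_eq_zero fun i _ => ?_
  rw [mul_smul_comm, smul_mul_assoc, map_smul, hI (e i) (hadj _ (he i).2) (he i).1, smul_zero]

end Pool.Agent.PSS.S2.H39
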